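import Pool.Agent.helper64.TP.SpecG1
import Pool.Agent.helper64.TP.Basic
/-! # F3R: the rule of the block exploration -/

namespace TP

open DP

open Classical in
theorem F3R (hG : BKP_stmt) : F3R_stmt := by
  intro N m K hm hK hKm
  obtain ⟨g1, g2, g3, g4, g5⟩ := hG N m K hm hK hKm
  refine ⟨fun X b => ⟨?_, ?_⟩, fun X b => ?_⟩
  · unfold fnext
    split_ifs with h1 h2
    · exact Finset.subset_sdiff.2 ⟨(g1 0 (Nat.zero_le _)).2, h1⟩
    · have h3 := Nat.find_spec h2
      exact Finset.subset_sdiff.2 ⟨(g1 _ h3.2.1).2, h3.2.2.1⟩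
    · exact Finset.empty_subset _
  · intro b' hbb
    let G : (V → V → Prop) → Finset V := fun R =>
      if Disjoint (bk N m K 0) X then bk N m K 0
      else if h : ∃ i, 1 ≤ i ∧ i ≤ K ^ 2 ∧ Disjoint (bk N m K i) X ∧ ∃ w v u : V,
          br w ∈ bk N m K i ∧ w ∈ Dq N ∧ Adj v w ∧ u.1 = -(4 * N : ℤ) ∧ R v u then
        bk N m K (Nat.find h)
      else ∅
    have e : ∀ b, fnext N m K X b = G (fun v u => Conn (col b) true (sat X ∩ Dq N) v u) :=
      fun b => rfl
    have e2 : (fun v u => Conn (col b) true (sat X ∩ Dq N) v u)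
        = fun v u => Conn (col b') true (sat X ∩ Dq N) v u := by
      funext v u
      exact propext (Conn.congr fun w hw => col_congr (hbb (br w) hw.1))
    rw [e, e, e2]
  · unfold fnext
    split_ifs with h1 h2
    · exact Or.inr ⟨0, Nat.zero_le _, rfl⟩
    · exact Or.inr ⟨_, (Nat.find_spec h2).2.1, rfl⟩
    · exact Or.inl rfl

end TP
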